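import Pool.Agent.Helper47.EX.Data2
import Pool.Agent.Helper47.FB.Idx

/-!
# MP_d483fb_an: lattices of type E7 and E8 acting on closed manifolds

`Γ₀` is the group of all automorphisms of the Lie algebra `L` of type `E_7` or `E_8` over a
commutative ring `O` (if `O` is the ring of integers of a number field this is a lattice in a
product of groups of type `E_n(ℂ)` and split real groups), or the group of the automorphisms which
commute with a semilinear involution (lattices in products of real forms; the forms `E_7(-5)`,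
`E_7(-25)`, `E_8(-24)` and the compact ones occur). The groups `Δ` are commensurable with `Γ₀`,
`[Γ₀ : Γ₀ ∩ Δ]` odd, or arbitrary groups which contain the monomial elements of `Γ₀`. `M` is a closed
connected manifold; the bound for the dimension is divided by `2 ^ k` if `χ(M)` is divisible by
`2 ^ k` and not by `2 ^ (k + 1)`. If `-1` is a square in `O` and `χ(M)` is odd the whole range of the
conjecture is covered for `E_7(ℂ)`, `E_7(-5)`, `E_7(-25)`, `E_8(ℂ)`, `E_8(-24)`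
(`min(d(G), v(G)) = 54, 33, 27, 112, 57`).

The proof uses the library theorem `gen` (Q175.EX, written for `E_6`), with coordinates for `E_7` and
`E_8`: a finite `2`-group of monomial automorphisms is contained in a conjugate of `Δ`, it has an
orbit with at most `2 ^ k` points in `M`, and its real representations in which `z` acts nontrivially
have dimension at least `32, 64, 128`.
-/

set_option autoImplicit false

namespace Pool.Agent.Results.MP_d483fb_an.ExceptionalE7E8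

open Matrix Q175.EX Module Pool.Agent.H185.ZM Pool.Agent.Helper381 Pool.Agent.Helper47.EX
open scoped Manifold ContDiff

section

variable {O : Type} [CommRing O] {n : ℕ} {U : Matrix (Fin (n + 1)) (Fin (n + 1)) ℤ}

/-- `g` maps each root vector `e_x` to a power of `u` times a root vector `e_y`. -/
def IsMonomial (u : Oˣ) (g : Au O U) : Prop :=
  ∀ x : Rt U, ∃ (y : Rt U) (k : ℤ), ap g (ev x) = ((u ^ k : Oˣ) : O) • ev y

/-- The nontrivial normal subgroups of `Δ` have finite index. -/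
def NormalFinite (Δ : Subgroup (Au O U)) : Prop :=
  ∀ K : Subgroup Δ, K.Normal → K = ⊥ ∨ Finite (Δ ⧸ K)

/-- The kernel of `α` contains a `Γ₀`-conjugate of `z`. -/
def InKernel (Γ₀ : Subgroup (Au O U)) (z : Au O U) {Δ : Subgroup (Au O U)} {E M : Type}
    [NormedAddCommGroup E] [NormedSpace ℝ E] [TopologicalSpace M] [ChartedSpace E M]
    (α : Δ → (M ≃ₘ^∞⟮𝓘(ℝ, E), 𝓘(ℝ, E)⟯ M)) : Prop :=
  ∃ γ ∈ Γ₀, ∃ h : γ⁻¹ * z * γ ∈ Δ, ∀ x, α ⟨_, h⟩ x = x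

/-- If `M` is a closed connected smooth manifold, `χ(M)` is not divisible by `2 ^ (k + 1)` and
`2 ^ k dim M < N` then the kernel of every homomorphism `α : Δ → Diff(M)` contains a `Γ₀`-conjugate of
`z`, and the image of `α` is finite if `2 ≠ 0` in `O` and the nontrivial normal subgroups of `Δ` have
finite index. -/
def Kills (Γ₀ : Subgroup (Au O U)) (z : Au O U) (N : ℕ) (Δ : Subgroup (Au O U)) : Prop :=
  ∀ (E M : Type) [NormedAddCommGroup E] [NormedSpace ℝ E] [FiniteDimensional ℝ E]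
    [TopologicalSpace M] [ChartedSpace E M] [IsManifold 𝓘(ℝ, E) ∞ M] [CompactSpace M]
    [T2Space M] [ConnectedSpace M] (k : ℕ), ¬ (2 : ℤ) ^ (k + 1) ∣ eulerChar M →
    finrank ℝ E * 2 ^ k < N → ∀ α : Δ → (M ≃ₘ^∞⟮𝓘(ℝ, E), 𝓘(ℝ, E)⟯ M), IsHom α →
      InKernel Γ₀ z α ∧ ((2 : O) ≠ 0 → NormalFinite Δ → (Set.range α).Finite)

/-- The automorphism `z`, `z h = h`, `z e_x = (-1) ^ (x_1) e_x`, where `x_1` is the coefficient of
the root `x` at the first simple root, belongs to `Γ₀`, and `Kills` holds for all groups `Δ` of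
automorphisms of `L` such that `[Γ₀ : Γ₀ ∩ Δ]` is odd or `Δ` contains the monomial elements of
`Γ₀`. -/
def Rigid (Γ₀ : Subgroup (Au O U)) (u : Oˣ) (N : ℕ) : Prop :=
  ∃ z ∈ Γ₀, (∀ X : LA O U, ap z X = (X.1, fun y => sg (y.1 0) * X.2 y)) ∧
    ∀ Δ : Subgroup (Au O U), Δ ≤ AutL O U →
      (¬ 2 ∣ Δ.relIndex Γ₀ ∨ ∀ g ∈ Γ₀, IsMonomial u g → g ∈ Δ) → Kills Γ₀ z N Δ

theorem conj_of [Finite (Rt U)] {m : ℕ} {C : Matrix (Fin m) (Fin (n + 1)) ℤ}
    (hU : ∀ j, U j j = 1) (hC : Function.Injective C.mulVec) {Γ₀ Δ : Subgroup (Au O U)}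
    (hΓ : Γ₀ ≤ AutL O U) {u : Oˣ} (hu : u ^ 4 = 1)
    (h : ¬ 2 ∣ Δ.relIndex Γ₀ ∨ ∀ g ∈ Γ₀, IsMonomial u g → g ∈ Δ) :
    ∃ γ ∈ Γ₀, ∀ g ∈ Γ₀, Mon C u (g : LA O U ≃ₗ[O] LA O U) → γ⁻¹ * g * γ ∈ Δ := by
  rcases h with h | h
  · have hfin : Finite (DmL Γ₀ C u) :=
      finite_D (Γ := (Γ₀ : Subgroup (LA O U ≃ₗ[O] LA O U))) hU hΓ hC hu
    have hp : IsPGroup 2 (DmL Γ₀ C u) :=
      pgroup_D (Γ := (Γ₀ : Subgroup (LA O U ≃ₗ[O] LA O U))) hU hΓ hC hu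
    obtain ⟨γ, hγ, Q, hQ1, -, hQ2⟩ := Pool.Agent.Helper47.FB.idx (Au O U) Γ₀ Δ 2 (DmL Γ₀ C u)
      (Γ₀.subtype.comp (DmL Γ₀ C u).subtype) (fun q => q.1.2) ⊤ inferInstance
      (hp.to_subgroup ⊤) h
    exact ⟨γ, hγ, fun g hg hmon =>
      hQ2 ⟨⟨g, hg⟩, Subgroup.subset_closure hmon⟩ (hQ1 (Subgroup.mem_top _))⟩
  · refine ⟨1, one_mem _, fun g hg hmon => ?_⟩
    rw [inv_one, one_mul, mul_one]
    obtain ⟨δ, -, hδ⟩ := hmon
    refine h g hg fun x => ?_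
    obtain ⟨y, -, k, hk⟩ := hδ x
    exact ⟨y, k, hk⟩

theorem Rigid_of {m : ℕ} {C : Matrix (Fin m) (Fin (n + 1)) ℤ} {p : Fin m} [Finite (Rt U)]
    (hU : ∀ j, U j j = 1) (hC : Function.Injective C.mulVec)
    (hp : ∀ x : Fin (n + 1) → ℤ, (C *ᵥ x) p = x 0) {Γ₀ : Subgroup (Au O U)}
    (hΓ : Γ₀ ≤ AutL O U) {u : Oˣ} (hu : u ^ 4 = 1) {N : ℕ}
    (hz0 : ((tor (U := U) (-1 : Oˣ) (C p)).toE : Au O U) ∈ Γ₀)
    (h : Rg U C p (Γ₀ : Subgroup (LA O U ≃ₗ[O] LA O U)) u N) : Rigid Γ₀ u N := by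
  classical
  set z : Au O U := ((tor (U := U) (-1 : Oˣ) (C p)).toE : Au O U) with hzd
  have hz : ∀ X : LA O U, ap z X = (X.1, fun y => sg (y.1 0) * X.2 y) := by
    intro X
    refine (T_apply C p X).trans (Prod.ext rfl (funext fun y => ?_))
    change sg ((C *ᵥ y.1) p) * X.2 y = sg (y.1 0) * X.2 y
    rw [hp]
  refine ⟨z, hz0, hz, ?_⟩
  intro Δ hΔ hcond E M _ _ _ _ _ _ _ _ _ k hχ hdim α hα
  obtain ⟨γ, hγ, hconj⟩ := conj_of (C := C) hU hC hΓ hu hcond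
  let Γ' : Subgroup (Au O U) := Δ.comap (MulAut.conj γ⁻¹).toMonoidHom
  have hΓ'mem : ∀ g : Au O U, g ∈ Γ' ↔ γ⁻¹ * g * γ ∈ Δ := by
    intro g
    change γ⁻¹ * g * γ⁻¹⁻¹ ∈ Δ ↔ _
    rw [inv_inv]
  have hΓ' : Γ' ≤ AutL O U := by
    intro g hg
    have h1 := hΔ ((hΓ'mem g).1 hg)
    have h2 := mul_mem (mul_mem (hΓ hγ) h1) (inv_mem (hΓ hγ))
    have e : γ * (γ⁻¹ * g * γ) * γ⁻¹ = g := by group
    rwa [e] at h2
  have hmon : ∀ g ∈ Γ₀, Mon C u (g : LA O U ≃ₗ[O] LA O U) → g ∈ Γ' := fun g hg hm =>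
    (hΓ'mem g).2 (hconj g hg hm)
  let α' : Γ' → (M ≃ₘ^∞⟮𝓘(ℝ, E), 𝓘(ℝ, E)⟯ M) := fun g => α ⟨γ⁻¹ * g.1 * γ, (hΓ'mem g.1).1 g.2⟩
  have hα' : IsHom α' := by
    intro g g' x
    have e : (⟨γ⁻¹ * (g * g').1 * γ, (hΓ'mem _).1 (g * g').2⟩ : Δ) =
        ⟨γ⁻¹ * g.1 * γ, (hΓ'mem g.1).1 g.2⟩ * ⟨γ⁻¹ * g'.1 * γ, (hΓ'mem g'.1).1 g'.2⟩ := by
      apply Subtype.ext
      change γ⁻¹ * (g.1 * g'.1) * γ = γ⁻¹ * g.1 * γ * (γ⁻¹ * g'.1 * γ)
      group
    change α ⟨γ⁻¹ * (g * g').1 * γ, (hΓ'mem _).1 (g * g').2⟩ x = _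
    rw [e, hα]
  have hr : RigL C p Γ' u N := RigL_of _ _ _ _ _ (h Γ' hΓ' hmon)
  obtain ⟨z', hz', hf⟩ := hr
  have hzz : z'.1 = z := by
    have h1 : ∀ X : LA O U, ap z'.1 X = ap z X := by
      intro X
      rw [hz, hz']
      refine Prod.ext rfl (funext fun y => ?_)
      change sg ((C *ᵥ y.1) p) * X.2 y = sg (y.1 0) * X.2 y
      rw [hp]
    exact LinearEquiv.ext (e := (z'.1 : LA O U ≃ₗ[O] LA O U)) (e' := (z : LA O U ≃ₗ[O] LA O U)) h1
  have h1 : ∀ x, α' z' x = x := fix_of (Γ := (Γ' : Subgroup (LA O U ≃ₗ[O] LA O U))) hU hΓ' hC hu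
    (z := z') hf E M k hχ hdim α' hα'
  have hm : γ⁻¹ * z * γ ∈ Δ := by
    rw [← hzz]
    exact (hΓ'mem _).1 z'.2
  have h2 : ∀ x, α ⟨γ⁻¹ * z * γ, hm⟩ x = x := by
    intro x
    have e : (⟨γ⁻¹ * z * γ, hm⟩ : Δ) = ⟨γ⁻¹ * z'.1 * γ, (hΓ'mem z'.1).1 z'.2⟩ := by
      apply Subtype.ext
      change γ⁻¹ * z * γ = γ⁻¹ * z'.1 * γ
      rw [hzz]
    rw [e]
    exact h1 x
  refine ⟨⟨γ, hγ, hm, h2⟩, fun h20 hN => hα.finite_range ?_⟩
  rcases hN (actKer hα.action) inferInstance with h3 | h3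
  · exfalso
    have h4' : (⟨γ⁻¹ * z * γ, hm⟩ : Δ) ∈ (⊥ : Subgroup Δ) := by
      rw [← h3]
      exact h2
    have h5' : γ⁻¹ * z * γ = 1 := congrArg Subtype.val (Subgroup.mem_bot.1 h4')
    have h4 : z = 1 := by
      have e : γ * (γ⁻¹ * z * γ) * γ⁻¹ = z := by group
      rw [← e, h5', mul_one, mul_inv_cancel]
    have hrt : B U (Pi.single 0 1) (Pi.single 0 1) = 1 := by
      unfold B
      rw [Finset.sum_eq_single 0, Finset.sum_eq_single 0]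
      · simp [hU]
      · intro b _ hb
        simp [Pi.single_eq_of_ne hb]
      · simp
      · intro b _ hb
        simp [Pi.single_eq_of_ne hb]
      · simp
    let x0 : Rt U := ⟨Pi.single 0 1, hrt⟩
    have h5 := hz (0, fun _ => 1)
    rw [h4] at h5
    have h6 := congrFun (congrArg Prod.snd h5) x0
    change (1 : O) = sg ((Pi.single 0 1 : Fin (n + 1) → ℤ) 0) * 1 at h6
    rw [Pi.single_eq_same, sg_odd (by decide), mul_one] at h6
    apply h20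
    calc (2 : O) = 1 + 1 := one_add_one_eq_two.symm
      _ = 1 + -1 := by rw [← h6]
      _ = 0 := add_neg_cancel 1
  · exact h3

theorem pow4 {u : Oˣ} (hu : u = -1 ∨ u * u = -1) : u ^ 4 = 1 := by
  rcases hu with rfl | h
  · simp [pow_succ]
  · rw [show (4 : ℕ) = 2 + 2 from rfl, pow_add, pow_two, h]
    simp

end

/-- **Lattices of type `E_7` and `E_8`.** (1) Let `O` be a commutative ring. The assertion `Rigid`
holds for the group of all automorphisms of the Lie algebra of type `E_7`, `E_8` with `u = -1`,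
`N = 32, 64`, and with `u ^ 2 = -1`, `N = 64, 128`. (2) Let `O` have an involution `*`, `u ^ 2 = -1`,
`u* u = 1`, `η` a unit. `Rigid` holds for the group of the automorphisms which commute with
`h ↦ -h*`, `e_x ↦ η ^ (l x) e_(-x)` if `l x` is the coefficient of `x` at the first simple root of
`E_7` (`N = 64`), at the last simple root of `E_7` (`N = 32`), at the last simple root of `E_8`
(`N = 64`). -/
theorem result :
    (∀ (O : Type) [CommRing O],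
      Rigid (AutL O (Uc CartanMatrix.E₇)) (-1) 32 ∧
      Rigid (AutL O (Uc CartanMatrix.E₈)) (-1) 64 ∧
      ∀ u : Oˣ, u * u = -1 →
        Rigid (AutL O (Uc CartanMatrix.E₇)) u 64 ∧
        Rigid (AutL O (Uc CartanMatrix.E₈)) u 128) ∧
    ∀ (O : Type) [CommRing O] [StarRing O] (u η : Oˣ), u * u = -1 → star (u : O) * u = 1 →
      Rigid (UniL O (Uc CartanMatrix.E₇) η (Pi.single 0 1)) u 64 ∧
      Rigid (UniL O (Uc CartanMatrix.E₇) η (Pi.single 6 1)) u 32 ∧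
      Rigid (UniL O (Uc CartanMatrix.E₈) η (Pi.single 7 1)) u 64 := by
  have f7 := finite7
  have f8 := finite8
  have d7 := Uc_diag CartanMatrix.E₇
  have d8 := Uc_diag CartanMatrix.E₈
  have i7 : Function.Injective C7.mulVec := inj_of L7 4 (by norm_num) L7_C7
  have i8 : Function.Injective C8.mulVec := inj_of L8 4 (by norm_num) L8_C8
  have p7 : ∀ x : Fin 7 → ℤ, (C7 *ᵥ x) 6 = x 0 := by
    intro x
    simp [C7, Matrix.mulVec, dotProduct, Fin.sum_univ_succ]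
  have p8 : ∀ x : Fin 8 → ℤ, (C8 *ᵥ x) 7 = x 0 := by
    intro x
    simp [C8, Matrix.mulVec, dotProduct, Fin.sum_univ_succ]
  refine ⟨fun O _ => ?_, fun O _ _ u η hu hs => ?_⟩
  · have h7 : ∀ (u : Oˣ) (N : ℕ), ((u = -1 ∧ N ≤ 2 ^ 5) ∨ (u * u = -1 ∧ N ≤ 2 ^ (5 + 1))) →
        Rigid (AutL O (Uc CartanMatrix.E₇)) u N := by
      intro u N hN
      exact Rigid_of d7 i7 p7 le_rfl (pow4 (hN.imp And.left And.left)) (Mo.toE_mem _)
        (rg7 ⟨le_rfl, fun _ => Mo.toE_mem _, fun _ => Mo.toE_mem _, fun _ _ => Mo.toE_mem _⟩ N hN)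
    have h8 : ∀ (u : Oˣ) (N : ℕ), ((u = -1 ∧ N ≤ 2 ^ 6) ∨ (u * u = -1 ∧ N ≤ 2 ^ (6 + 1))) →
        Rigid (AutL O (Uc CartanMatrix.E₈)) u N := by
      intro u N hN
      exact Rigid_of d8 i8 p8 le_rfl (pow4 (hN.imp And.left And.left)) (Mo.toE_mem _)
        (rg8 ⟨le_rfl, fun _ => Mo.toE_mem _, fun _ => Mo.toE_mem _, fun _ _ => Mo.toE_mem _⟩ N hN)
    exact ⟨h7 _ _ (Or.inl ⟨rfl, by norm_num⟩), h8 _ _ (Or.inl ⟨rfl, by norm_num⟩),
      fun u hu => ⟨h7 _ _ (Or.inr ⟨hu, by norm_num⟩), h8 _ _ (Or.inr ⟨hu, by norm_num⟩)⟩⟩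
  · have h4 := pow4 (u := u) (Or.inr hu)
    have h1 : star ((-1 : Oˣ) : O) * ((-1 : Oˣ) : O) = 1 := by simp
    refine ⟨?_, ?_, ?_⟩
    · exact Rigid_of d7 i7 p7 (Ug_le _ _) h4 (tor_mem_Ug _ _ h1 _ _)
        (rg7 ⟨Ug_le _ _, fun _ => tor_mem_Ug _ _ h1 _ _, fun _ => tor_mem_Ug _ _ hs _ _,
          fun β hβ => rf_mem_Ug _ _ _ hβ⟩ _ (Or.inr ⟨hu, by norm_num⟩))
    · exact Rigid_of d7 i7 p7 (Ug_le _ _) h4 (tor_mem_Ug _ _ h1 _ _)
        (rg7' ⟨Ug_le _ _, fun _ => tor_mem_Ug _ _ h1 _ _, fun _ => tor_mem_Ug _ _ hs _ _,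
          fun β hβ => rf_mem_Ug _ _ _ hβ⟩ _ (Or.inr ⟨hu, by norm_num⟩))
    · exact Rigid_of d8 i8 p8 (Ug_le _ _) h4 (tor_mem_Ug _ _ h1 _ _)
        (rg8' ⟨Ug_le _ _, fun _ => tor_mem_Ug _ _ h1 _ _, fun _ => tor_mem_Ug _ _ hs _ _,
          fun β hβ => rf_mem_Ug _ _ _ hβ⟩ _ (Or.inr ⟨hu, by norm_num⟩))

end Pool.Agent.Results.MP_d483fb_an.ExceptionalE7E8
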