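import Pool.Agent.Helper47.FB.Main2
import Pool.Agent.Helper47.FB.Ge2
import Pool.Agent.Helper47.FB.Geo
import Pool.Agent.Helper47.FB.Orb
import Pool.Agent.Helper47.FB.Smp
import Pool.Agent.Helper47.FB.Loc
import Pool.Agent.Helper47.FB.Eqv
import Pool.Agent.Helper47.FB.Rpw
import Pool.Agent.Helper47.FB.Cmb
import Pool.Agent.Helper47.FB.Idx
import Pool.Agent.Helper47.FB.Wht
import Pool.Agent.Helper47.FB.Wh2
import Pool.Agent.Helper47.FB.Evp
import Pool.Agent.Helper47.FB.Elb
import Pool.Agent.Helper47.FB.Cna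
import Pool.Agent.Helper47.FB.Cnp
import Pool.Agent.Helper47.FB.Spn
import Pool.Agent.Helper47.FB.El2

/-!
# MP_d483fb_an: lattices containing powers of Frobenius groups

`p` is an odd prime, `F` is a finite group with an element `z` of order `p` and a homomorphism
`c : F → (ℤ/p)ˣ`, `g z g⁻¹ = z ^ c(g)`, whose image has odd order `k > 1`, and `u : F → O` is a
homomorphism to the units of a ring `O` (not necessarily commutative).

Example: `K` is a number field such that `[K(ζ_p) : K] = k` is odd and `> 1`, for instance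
`K = ℚ(√-p)`, `p ≡ 3 mod 4`, `p > 3`, `k = (p - 1) / 2`; then `F = ℤ/p ⋊ Gal(K(ζ_p)/K)` acts on
`O_K[ζ_p]`, and `O` is the ring of `k × k` matrices over `O_K` (or the endomorphism ring of the
`O_K`-module `O_K[ζ_p]`). The groups are

* groups commensurable with a group `Γ` of invertible `n × n` matrices over `O` which contains the
  diagonal matrices with entries in `u(F)`, for instance `SL_N(O_K)`, `N = k n`, a lattice in a
  product of copies of `SL_N(ℂ)` (`min(d(G), v(G)) = 2 N - 2 = 2 k n - 2`), and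
* the group `E_n(O)` generated by the elementary matrices, and the groups containing it.

Proof. `A = (ℤ/p) ^ n` acts on `M`. By Smith theory it (or a subgroup of small index) has a fixed
point `x`, and the element `q` of `F ^ n` changes the character of the representation of `A` on the
tangent space of `x` by a permutation of the weights. If `χ(M)` is not divisible by `p` the number of
the characters which occur at the fixed points of `A` is at most the total Betti number `β`, as
the character is locally constant and the number of the components of the fixed set is at most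
`β`. If `χ(M)` is arbitrary we use the theorem that two points fixed by a subgroup `B` of `A` can
be connected in the fixed set of a subgroup of index at most `p ^ (β - 1)` in `B`. So the set of
nontrivial weights is stable under `-1` (as the representation is real) and under a large subgroup
of `U ^ n`, `U` the image of `c`, or under the scalars in `U`; as `k` is odd, `-1` is not in `U`, and
an effective action has at least `2 k (n - C)` weights.
-/

set_option autoImplicit false

namespace Pool.Agent.Results.MP_d483fb_an.FrobeniusBlocks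

open Module Pool.Agent.Helper381 Pool.Agent.H185.ZM Pool.Agent.Helper47.ZQ
  Pool.Agent.Helper47.FB Matrix Pool.Agent.X183.ZM
open scoped Manifold ContDiff

variable {O : Type} [Ring O]

/-- The normal subgroups of `Δ` are central or of finite index. -/
def CentralOrFiniteIndex {n : ℕ} (Δ : Subgroup (Matrix (Fin n) (Fin n) O)ˣ) : Prop :=
  ∀ N : Subgroup Δ, N.Normal →
    (∀ g ∈ N, (g : (Matrix (Fin n) (Fin n) O)ˣ) ∈ Subgroup.center (Matrix (Fin n) (Fin n) O)ˣ) ∨
      Finite (Δ ⧸ N)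

/-- The assertion about the homomorphisms `Δ → Diff(M)`: the kernel contains a conjugate of a
diagonal matrix with the entries `u(z) ^ v_i`, `v ≠ 0`, and the image is finite if the normal
subgroups of `Δ` are central or of finite index. -/
def TorsionInKernel (E : Type) [NormedAddCommGroup E] [NormedSpace ℝ E] (M : Type)
    [TopologicalSpace M] [ChartedSpace E M] {F : Type} [Group F] (u : F →* O) (z : F) (p : ℕ)
    {n : ℕ} (Γ Δ : Subgroup (Matrix (Fin n) (Fin n) O)ˣ) : Prop :=
  ∀ α : Δ → (M ≃ₘ^∞⟮𝓘(ℝ, E), 𝓘(ℝ, E)⟯ M), IsHom α →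
    (∃ v : Fin n → ZMod p, v ≠ 0 ∧
      ∃ γ ∈ Γ, ∃ h : γ⁻¹ * fD u n (iv z v) * γ ∈ Δ, ∀ x, α ⟨_, h⟩ x = x) ∧
    (CentralOrFiniteIndex Δ → (Set.range α).Finite)

/-- The assertion about the homomorphisms `Γ → Diff(M)`, `E_n(O) ≤ Γ`: they are trivial on `E_n(O)`,
and the image is finite if `E_n(O)` has finite index. -/
def TrivialOnElementary (E : Type) [NormedAddCommGroup E] [NormedSpace ℝ E] (M : Type)
    [TopologicalSpace M] [ChartedSpace E M] (n : ℕ) (O : Type) [Ring O] : Prop :=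
  ∀ (Γ : Subgroup (Matrix (Fin n) (Fin n) O)ˣ) (hΓ : EL n O ≤ Γ)
    (α : Γ → (M ≃ₘ^∞⟮𝓘(ℝ, E), 𝓘(ℝ, E)⟯ M)), IsHom α →
    (∀ (g : (Matrix (Fin n) (Fin n) O)ˣ) (hg : g ∈ EL n O) (x : M), α ⟨g, hΓ hg⟩ x = x) ∧
    ((EL n O).relIndex Γ ≠ 0 → (Set.range α).Finite)

/-- the total mod `p` Betti number of `M` -/
noncomputable def beta (p : ℕ) (hp : p.Prime) (M : Type) [TopologicalSpace M] : ℕ :=
  haveI := Fact.mk hp
  (totalBetti (ZMod p) M).toNat

theorem geo' : S_GEO := geo (orb smp) loc eqv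

theorem ge2' : S_GE2 := ge2 (cnp cna) loc eqv

variable {E : Type} [NormedAddCommGroup E] [NormedSpace ℝ E] [FiniteDimensional ℝ E]
  {M : Type} [TopologicalSpace M] [ChartedSpace E M] [IsManifold 𝓘(ℝ, E) ∞ M]

theorem torsion {F : Type} [Group F] {p k : ℕ} {z : F} {c : F →* (ZMod p)ˣ} (h : Frob p k z c)
    (u : F →* O) (hu : u z ≠ 1) {n : ℕ} {Γ Δ : Subgroup (Matrix (Fin n) (Fin n) O)ˣ}
    (H : ∀ α : Δ → (M ≃ₘ^∞⟮𝓘(ℝ, E), 𝓘(ℝ, E)⟯ M), IsHom α → ∃ v : Fin n → ZMod p, v ≠ 0 ∧
      ∃ γ ∈ Γ, ∃ h : γ⁻¹ * fD u n (iv z v) * γ ∈ Δ, ∀ x, α ⟨_, h⟩ x = x) :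
    TorsionInKernel E M u z p Γ Δ := by
  intro α hα
  obtain ⟨v, hv, γ, hγ, hm, hx⟩ := H α hα
  refine ⟨⟨v, hv, γ, hγ, hm, hx⟩, fun hNS => hα.finite_range ?_⟩
  rcases hNS (actKer hα.action) inferInstance with h3 | h3
  · exfalso
    have hc := h3 ⟨_, hm⟩ hx
    have h4 := Subgroup.Normal.conj_mem (inferInstance :
      (Subgroup.center (Matrix (Fin n) (Fin n) O)ˣ).Normal) _ hc γ
    have h5 : γ * (γ⁻¹ * fD u n (iv z v) * γ) * γ⁻¹ = fD u n (iv z v) := by group
    apply not_central h u hu v hv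
    rw [← h5]
    exact h4
  · exact h3

theorem elementary {n : ℕ} (H : ∀ (Γ : Subgroup (Matrix (Fin n) (Fin n) O)ˣ) (hΓ : EL n O ≤ Γ)
    (α : Γ → (M ≃ₘ^∞⟮𝓘(ℝ, E), 𝓘(ℝ, E)⟯ M)), IsHom α →
    ∀ (g : (Matrix (Fin n) (Fin n) O)ˣ) (hg : g ∈ EL n O) (x : M), α ⟨g, hΓ hg⟩ x = x) :
    TrivialOnElementary E M n O := by
  refine fun Γ hΓ α hα => ⟨H Γ hΓ α hα, fun hfi => hα.finite_range ?_⟩
  have h1 : (EL n O).subgroupOf Γ ≤ actKer hα.action := by
    intro g hg x
    exact H Γ hΓ α hα g hg x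
  have h2 : ((EL n O).subgroupOf Γ).FiniteIndex := ⟨hfi⟩
  have h3 : (actKer hα.action).FiniteIndex := Subgroup.finiteIndex_of_le h1
  exact Subgroup.finite_quotient_of_finiteIndex

/-- **Lattices containing powers of Frobenius groups.** Let `M` be a closed connected smooth manifold,
`p` an odd prime, `β` the total mod `p` Betti number of `M`, `F` a finite group, `z ∈ F` of order `p`,
`g z g⁻¹ = z ^ c(g)` for a homomorphism `c : F → (ℤ/p)ˣ` whose image has odd order `k > 1`, `q` the
smallest prime factor of `k`, `u : F → Oˣ` a homomorphism, `O` a ring. `Γ` and `Δ` are groups of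
invertible `n × n` matrices over `O`, `N = [Γ : Γ ∩ Δ]`.
(1) Suppose that `u(z) ≠ 1`, that `Γ` contains the diagonal matrices with entries in `u(F)`, and
(a) `N` is finite, `N < q` and `dim M + 4 k (β - 1) < 2 k n`, or
(b) `p` divides neither `χ(M)` nor `N`, `N` is finite, `N β < q ^ (C + 1)` and
`dim M + 2 k C < 2 k n`.
Then the kernel of every homomorphism `Δ → Diff(M)` contains a conjugate of a diagonal matrix with
the entries `u(z) ^ v_i`, `v ≠ 0`; the image is finite if the normal subgroups of `Δ` are central or of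
finite index (Margulis).
(2) Suppose that `1 + u(z) + ⋯ + u(z) ^ (p - 1) = 0`, `4 ≤ n`, and
(a) `dim M + 4 k (β - 1) < 2 k (n - 1)` and `⌊dim M / 2⌋ + β - 1 < ⌊n / 2⌋ ^ 2`, or
(b) `p` does not divide `χ(M)`, `k β < q ^ (C + 1)`, `dim M + 2 k C < 2 k n` and
`⌊dim M / 2⌋ < ⌊n / 2⌋ ^ 2`.
If `Γ` contains the group `E_n(O)` generated by the elementary matrices then every homomorphism
`Γ → Diff(M)` is trivial on `E_n(O)`; it has finite image if `E_n(O)` has finite index in `Γ`. -/
theorem result [CompactSpace M] [T2Space M] [ConnectedSpace M] (n p k : ℕ) {F : Type} [Group F]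
    [Finite F] (z : F) (c : F →* (ZMod p)ˣ) (h : Frob p k z c) (u : F →* O) :
    (∀ Γ Δ : Subgroup (Matrix (Fin n) (Fin n) O)ˣ, u z ≠ 1 → (∀ q, fD u n q ∈ Γ) →
      ((Δ.relIndex Γ ≠ 0 ∧ Δ.relIndex Γ < k.minFac ∧
          finrank ℝ E + 4 * k * (beta p h.prime M - 1) < 2 * k * n) ∨
        ∃ C, ¬ (p : ℤ) ∣ eulerChar M ∧ ¬ p ∣ Δ.relIndex Γ ∧
          Δ.relIndex Γ * beta p h.prime M < k.minFac ^ (C + 1) ∧
          finrank ℝ E + 2 * k * C < 2 * k * n) →
      TorsionInKernel E M u z p Γ Δ) ∧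
    (∑ i ∈ Finset.range p, u z ^ i = 0 → 4 ≤ n →
      ((finrank ℝ E + 4 * k * (beta p h.prime M - 1) < 2 * k * (n - 1) ∧
          finrank ℝ E / 2 + (beta p h.prime M - 1) < (n / 2) * (n / 2)) ∨
        ∃ C, ¬ (p : ℤ) ∣ eulerChar M ∧ k * beta p h.prime M < k.minFac ^ (C + 1) ∧
          finrank ℝ E + 2 * k * C < 2 * k * n ∧ finrank ℝ E / 2 < (n / 2) * (n / 2)) →
      TrivialOnElementary E M n O) := by
  refine ⟨fun Γ Δ hu hΓ hcond => torsion h u hu fun α hα => ?_,
    fun hu hn hcond => elementary fun Γ hΓ α hα => ?_⟩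
  · rcases hcond with ⟨h0, h1, h2⟩ | ⟨C, h1, h2, h3, h4⟩
    · exact lat2 ge2' rpw spn idx h u Γ Δ hΓ h0 h1 (by
        have e : 2 * k * (2 * (beta p h.prime M - 1)) = 4 * k * (beta p h.prime M - 1) := by ring
        rw [← e] at h2
        exact h2) α hα
    · exact lat geo' rpw cmb idx h u Γ Δ hΓ h1 h2 C h3 h4 α hα
  · rcases hcond with ⟨h1, h2⟩ | ⟨C, h1, h2, h3, h4⟩
    · exact ele2 ge2' rpw spn wht wh2 evp el2 h u hu hn (by
        have e : 2 * k * (2 * (beta p h.prime M - 1)) = 4 * k * (beta p h.prime M - 1) := by ring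
        rw [← e] at h1
        exact h1) h2 Γ hΓ α hα
    · exact ele geo' rpw cmb wht evp elb h u hu hn h1 C h2 h3 h4 Γ hΓ α hα

end Pool.Agent.Results.MP_d483fb_an.FrobeniusBlocks
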