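import Pool.Agent.Helper31.Zim.Stm

/-!
# MP_d483fb_an: classical lattices acting on closed manifolds, the full range of dimensions

`M` is a closed connected smooth manifold, `m = dim M`, `b_q = dim H^q(M; F_p)`; `p ≠ ℓ` are prime
numbers, `ℓ` odd, and `⌊m / 2⌋ + ⌊ℓ / p⌋ + 1 < ℓ`, that is `m ≤ 2 ℓ - 3` if `p > ℓ` and `m ≤ ℓ - 2`
if `p = 2`. No other condition on the pair `(p, ℓ)`.

1. Let `α : G → Diff(M)` be a homomorphism, `G` any group, `A` a finite abelian subgroup of exponent
`p` and `s ∈ G` an element of order `ℓ` which normalizes `A`, such that in each degree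
`q = 1, ..., m` either `s` acts trivially on `H^q(M; F_p)` (for example `s` acts by a diffeomorphism
homotopic to the identity), or `b_q < ℓ - 1` and `s` is conjugate in `G` to its powers `s^j`,
`0 < j < ℓ`, or `b_q` is less than the order of `p` modulo `ℓ`. Then all commutators of `s` with
elements of `A` act trivially on `M`.

2. Let `Δ` be a group of matrices which contains `SO(f; R)`, `f` a diagonal quadratic form in
`n ≥ ℓ` variables whose first `ℓ` coefficients are equal, `m ≤ ℓ - 2`. If in each degree `b_q < ℓ-1`
(`p = 2`), or the cyclic permutations of the first `ℓ` coordinates act trivially on `H^q(M; F_2)`,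
then all homomorphisms `Δ → Diff(M)` kill the even sign changes of the first `ℓ` coordinates; they
have finite image if the normal subgroups of `Δ` are central or of finite index (the theorem of
Margulis for lattices of higher rank). For the lattices of `SO(r, s)` (forms over totally real
fields, definite at the other places) one can take any prime number `ℓ ≤ r`; the conjecture is
about `m < r + s - 2`, and `m < 2 s - 1` is known.

3. The same for `SU(h; R)` and `U(h; R)`, `R` with a `p`-th root of unity `z ≠ 1` such that
`z* = z⁻¹`, for `m ≤ 2 ℓ - 3` if `p > ℓ`. For the lattices of `SU(r, s)` one can take any prime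
number `ℓ ≤ r`; the conjecture is about `m < 2 (r + s) - 3`, and `m < 2 s - 1` is known.

4. Subgroups of `Γ` (and commensurable groups) `Δ` with `[Γ : Γ ∩ Δ]` prime to `ℓ` and less than
`p ^ (ℓ - 1)`.

5. `E_n(O)`, `O` the integers of a number field which contains a `p`-th root of unity `z ≠ 1`,
`n ≥ ℓ`: all homomorphisms into `Diff(M)` have finite image (no assumption on normal subgroups), if
`b_q < ℓ - 1` for `q = 1, ..., m` or the cyclic permutations act trivially on `H^q(M; F_p)`.

The bounds in part 1 are sharp for `p > ℓ` (`CP^(ℓ - 1)` and, for the condition `b_q < ℓ - 1`, the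
torus of dimension `ℓ - 1`) and for `p = 2` (`RP^(ℓ - 1)`).

Method. Let `x = ∑ ξ_i (g_i - 1)` in the group algebra of `A` over a field `K` which contains `F_p`,
`ξ` an eigenvector of `s`. The periodic resolutions of `K` over `K[x]/(x^p)`, with the factors
`x^j`, `x^(p - j)`, have classes of degree `2 k` and `2 k + 1` on which `s` acts by `ζ^(p k)` and
`ζ^(p k + j)`. The range of `m` is the one in which none of the obstructions to a fixed point of `A`
can be nonzero (for `j ≡ - ℓ` modulo `p`); moreover the eigenvalue `ζ^(- p c)`, `c = ⌊ℓ / p⌋ + 1`,
of `s` on the functions on the set of the components of `M^A` can not occur, so the type of the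
isotropy representation of `A` at a fixed point is invariant under `s` (all this is done for
finite partially ordered sets and the nerve of an invariant good cover). So if `A` acts
nontrivially, `ℓ` different pairs of characters occur in a tangent space.
-/

set_option autoImplicit false

namespace Pool.Agent.Results.MP_d483fb_an.HomologicallyTrivialFullRange

open scoped Manifold ContDiff
open Pool.Agent.H185.ZM Pool.Agent.E8helper72.ZO Pool.Agent.E8helper2.ZB Pool.Agent.Helper381
open Pool.Agent.Helper31.Zim Module Matrix NumberField

variable {E : Type} [NormedAddCommGroup E] [NormedSpace ℝ E] [FiniteDimensional ℝ E]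
  {M : Type} [TopologicalSpace M] [ChartedSpace E M] [IsManifold 𝓘(ℝ, E) ∞ M]

/-- **Actions of classical lattices on closed manifolds, the full range of dimensions.** -/
theorem result [CompactSpace M] [T2Space M] [ConnectedSpace M] (p ℓ : ℕ) (hp : p.Prime)
    (hℓ : ℓ.Prime) (hℓ2 : ℓ ≠ 2) (hpl : p ≠ ℓ) (hm : finrank ℝ E / 2 + ℓ / p + 1 < ℓ) :
    -- (1) an abelian group of exponent `p` and an element of order `ℓ` which normalizes it
    GroupCase E M p ℓ ∧
    -- (2) orthogonal groups
    (p = 2 → OrthogonalCase E M p ℓ) ∧
    -- (3) special unitary groups over commutative rings and unitary groups over rings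
    SpecialUnitaryCase E M p ℓ ∧ UnitaryCase E M p ℓ ∧
    -- (4) subgroups of finite index
    FiniteIndexCase E M p ℓ ∧
    -- (5) the groups generated by the elementary matrices over the integers of number fields
    ElementaryCase E M p ℓ :=
  ⟨groupCase hp hℓ hℓ2 hpl hm, fun h2 => orthogonalCase h2 hℓ hℓ2 hm,
    specialUnitaryCase hp hℓ hℓ2 hpl hm, unitaryCase hp hℓ hℓ2 hpl hm,
    finiteIndexCase hp hℓ hℓ2 hpl hm, elementaryCase hp hℓ hℓ2 hpl hm⟩

end Pool.Agent.Results.MP_d483fb_an.HomologicallyTrivialFullRange
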