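import Pool.Agent.Helper47.ZQ.Elem

/-!
# MP_d483fb_an: quaternionic lattices acting on arbitrary closed manifolds

`O` is a ring (not necessarily commutative) and `u : Q₈ → O` is a homomorphism from the quaternion
group of order eight to the units of `O`, `u(-1) = -1`; for example an order in a quaternion algebra
containing `i, j, k`, or the ring of `2 × 2` matrices over `ℤ[i]`. The groups are

* groups commensurable with a group `Γ` of invertible `n × n` matrices over `O` which contains the
  diagonal matrices with entries in `u(Q₈)`: lattices in `SL_n(ℍ)`, in `Sp(p, q)`, `p + q = n`, and in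
  `Sp_{2n}(ℂ)` (`min(d(G), v(G)) = 4 n - 4, 4 n - 5, 4 n - 4`), and
* the group `E_n(O)` generated by the elementary matrices, and the groups containing it.

`M` is any closed connected manifold. No condition on the Euler characteristic is needed: the bound is
`dim M < 4 n - C` where `C` depends only on the total mod `2` Betti number of `M` (and on the index).

Proof. A finite `2`-group `P` with a central elementary abelian subgroup `Z` acts on `M`. By Smith
theory in two steps there is a subgroup `A ≤ Z` of small index, with the following property: each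
subgroup `N` between `A` and `P` in which all squares lie in `A` has a subgroup `N' ≥ A` of small
index with a fixed point. For `Z = {±1} ^ n ≤ P ≤ Q₈ ^ n` the subspace `A` of `F₂ ^ n` has small
codimension, so `Z / A` is generated by the images of few coordinates; sort the coordinates by their
images in `Z / A`. The group `N` is the stabilizer code with the generators `X Z Z X` on four
consecutive coordinates of the same type. At every place where a character of `A`
jumps there are two elements of `N'` whose squares and commutator have the value `-1`, so that the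
characters of `A` which are not constant have multiplicity at least four in the representation of
`N'` on the tangent space. Together with the bound for the number of jumps this shows that a
nonconstant sign vector acts trivially.
-/

set_option autoImplicit false

namespace Pool.Agent.Results.MP_d483fb_an.QuaternionicBetti

open Module Pool.Agent.H185.ZM Pool.Agent.Helper47.ZQ Matrix Pool.Agent.X183.ZM
open scoped Manifold ContDiff

variable {O : Type} [Ring O]

/-- `s` is a diagonal matrix with the entries `1` and `-1`, and not all of them are equal. -/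
def IsSign {n : ℕ} (s : Matrix (Fin n) (Fin n) O) : Prop :=
  (∀ i j, i ≠ j → s i j = 0) ∧ (∀ i, s i i = 1 ∨ s i i = -1) ∧ s ≠ 1 ∧ s ≠ -1

/-- The normal subgroups of `Δ` are central or of finite index. -/
def CentralOrFiniteIndex {n : ℕ} (Δ : Subgroup (Matrix (Fin n) (Fin n) O)ˣ) : Prop :=
  ∀ N : Subgroup Δ, N.Normal →
    (∀ g ∈ N, (g : (Matrix (Fin n) (Fin n) O)ˣ) ∈ Subgroup.center (Matrix (Fin n) (Fin n) O)ˣ) ∨
      Finite (Δ ⧸ N)

/-- The assertion about the homomorphisms `Δ → Diff(M)`: the kernel contains a conjugate of a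
diagonal sign matrix which is not `1` or `-1`, and the image is finite if the normal subgroups of `Δ`
are central or of finite index. -/
def SignInKernel (E : Type) [NormedAddCommGroup E] [NormedSpace ℝ E] (M : Type)
    [TopologicalSpace M] [ChartedSpace E M] {n : ℕ}
    (Γ Δ : Subgroup (Matrix (Fin n) (Fin n) O)ˣ) : Prop :=
  ∀ α : Δ → (M ≃ₘ^∞⟮𝓘(ℝ, E), 𝓘(ℝ, E)⟯ M), IsHom α →
    (∃ s ∈ Γ, IsSign (s : Matrix (Fin n) (Fin n) O) ∧
      ∃ γ ∈ Γ, ∃ h : γ⁻¹ * s * γ ∈ Δ, ∀ x, α ⟨_, h⟩ x = x) ∧
    (CentralOrFiniteIndex Δ → (Set.range α).Finite)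

variable {E : Type} [NormedAddCommGroup E] [NormedSpace ℝ E] [FiniteDimensional ℝ E]
  {M : Type} [TopologicalSpace M] [ChartedSpace E M] [IsManifold 𝓘(ℝ, E) ∞ M]

/-- **Quaternionic lattices acting on closed manifolds.** Let `M` be a closed connected smooth
manifold, `b` its total mod `2` Betti number minus one, and
`K(κ) = 7 + 7 2^κ + 15 κ (8 κ + 22 + 7 2^κ)`. Let `O` be a ring with a homomorphism
`u : Q₈ → O` to the units, `u(-1) = -1`.
(1) Suppose that `-1 ≠ 1` in `O`, that the group `Γ` of invertible `n × n` matrices over `O` contains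
the diagonal matrices with entries in `u(Q₈)`, that the index `[Γ : Γ ∩ Δ]` is finite and not
divisible by `2 ^ (e + 1)`, and that `dim M + 4 K(b + e) + 4 < 4 n`. Then the kernel of every
homomorphism `Δ → Diff(M)` contains a conjugate of a diagonal sign matrix different from `1` and
`-1`; the image is finite if the normal subgroups of `Δ` are central or of finite index (Margulis).
(2) If `dim M + 4 K(b + 2) + 4 < 4 n` and `Γ` contains the group `E_n(O)` generated by the elementary
matrices then every homomorphism `Γ → Diff(M)` is trivial on `E_n(O)`; it has finite image if `E_n(O)`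
has finite index in `Γ`. -/
theorem result [CompactSpace M] [T2Space M] [ConnectedSpace M] (n : ℕ)
    (u : QuaternionGroup 2 →* O) (hz : u (QuaternionGroup.a 2) = -1) :
    (∀ (e : ℕ) (Γ Δ : Subgroup (Matrix (Fin n) (Fin n) O)ˣ), (-1 : O) ≠ 1 →
      (∀ q, quatDiag u n q ∈ Γ) → ¬ 2 ^ (e + 1) ∣ Δ.relIndex Γ →
      finrank ℝ E + 4 * K (b2 M + e) + 4 < 4 * n → SignInKernel E M Γ Δ) ∧
    (finrank ℝ E + 4 * K (b2 M + 2) + 4 < 4 * n →
      ∀ (Γ : Subgroup (Matrix (Fin n) (Fin n) O)ˣ) (hΓ : EL n O ≤ Γ)
        (α : Γ → (M ≃ₘ^∞⟮𝓘(ℝ, E), 𝓘(ℝ, E)⟯ M)), IsHom α →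
        (∀ (g : (Matrix (Fin n) (Fin n) O)ˣ) (hg : g ∈ EL n O) (x : M), α ⟨g, hΓ hg⟩ x = x) ∧
        ((EL n O).relIndex Γ ≠ 0 → (Set.range α).Finite)) := by
  refine ⟨fun e Γ Δ h1 hΓ he hdim α hα => ?_, fun hdim Γ hΓ α hα => ?_⟩
  · obtain ⟨ε, ⟨i, j, hij⟩, γ, hγ, h, hx⟩ := lat Γ Δ (quatDiag u n) hΓ he hdim α hα
    have hv : ∀ e : ZMod 2, u (sgn e) = if e = 0 then 1 else -1 := by
      intro e
      have : e = 0 ∨ e = 1 := by
        revert e
        decide
      rcases this with rfl | rfl
      · rw [sgn_zero, map_one, if_pos rfl]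
      · rw [sgn_one, hz, if_neg (by decide)]
    have h2 : (ε i = 0 ∧ ε j ≠ 0) ∨ (ε i ≠ 0 ∧ ε j = 0) := by
      revert hij
      generalize ε i = e
      generalize ε j = f
      revert e f
      decide
    have hne : u (sgn (ε i)) ≠ u (sgn (ε j)) := by
      rw [hv, hv]
      rcases h2 with ⟨h2, h3⟩ | ⟨h2, h3⟩
      · rw [if_pos h2, if_neg h3]
        exact h1.symm
      · rw [if_neg h2, if_pos h3]
        exact h1
    have hs : ∀ k, (quatDiag u n (sgD ε) : Matrix (Fin n) (Fin n) O) k k = u (sgn (ε k)) := by
      intro k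
      rw [quatDiag_coe, diagonal_apply_eq]
      rfl
    have hijne : i ≠ j := fun h => hij (by rw [h])
    have hnc : γ⁻¹ * quatDiag u n (sgD ε) * γ ∉ Subgroup.center (Matrix (Fin n) (Fin n) O)ˣ := by
      intro hc
      have h4 := Subgroup.Normal.conj_mem (inferInstance :
        (Subgroup.center (Matrix (Fin n) (Fin n) O)ˣ).Normal) _ hc γ
      have h5 : γ * (γ⁻¹ * quatDiag u n (sgD ε) * γ) * γ⁻¹ = quatDiag u n (sgD ε) := by group
      rw [h5] at h4
      have h6 := Subgroup.mem_center_iff.1 h4 (El i j hijne 1)
      rw [quatDiag_El] at h6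
      have h7 := congrArg Units.val (mul_right_cancel h6)
      rw [El_val, El_val] at h7
      have h7' : (Matrix.single i j (1 : O) : Matrix (Fin n) (Fin n) O) =
          Matrix.single i j (u (sgD ε i) * 1 * u (sgD ε j)⁻¹) := add_left_cancel h7
      have h8 := congrFun (congrFun h7' i) j
      rw [Matrix.single_apply_same, Matrix.single_apply_same] at h8
      apply hne
      have hinv : ∀ e : ZMod 2, (sgn e)⁻¹ = sgn e := by decide
      have h9 : u (sgn (ε i)) * 1 * u (sgn (ε j))⁻¹ = 1 := h8.symm
      rw [mul_one] at h9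
      calc u (sgn (ε i)) = u (sgn (ε i)) * (u (sgn (ε j))⁻¹ * u (sgn (ε j))) := by
            rw [← map_mul, inv_mul_cancel, map_one, mul_one]
        _ = u (sgn (ε j)) := by rw [← mul_assoc, h9, one_mul]
    refine ⟨⟨quatDiag u n (sgD ε), hΓ _, ⟨?_, ?_, ?_, ?_⟩, γ, hγ, h, hx⟩, fun hNS => ?_⟩
    · intro k l hkl
      rw [quatDiag_coe, diagonal_apply_ne _ hkl]
    · intro k
      rw [hs, hv]
      split_ifs
      · exact Or.inl rfl
      · exact Or.inr rfl
    · intro h3
      apply hne
      rw [← hs, ← hs, h3, one_apply_eq, one_apply_eq]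
    · intro h3
      apply hne
      rw [← hs, ← hs, h3, Matrix.neg_apply, Matrix.neg_apply, one_apply_eq, one_apply_eq]
    · refine hα.finite_range ?_
      rcases hNS (actKer hα.action) inferInstance with h3 | h3
      · exact absurd (h3 ⟨_, h⟩ hx) hnc
      · exact h3
  · refine ⟨elem u hz Γ hΓ hdim α hα, fun hfi => hα.finite_range ?_⟩
    have h1 : (EL n O).subgroupOf Γ ≤ actKer hα.action := by
      intro g hg x
      exact elem u hz Γ hΓ hdim α hα g hg x
    have h2 : ((EL n O).subgroupOf Γ).FiniteIndex := ⟨hfi⟩
    have h3 : (actKer hα.action).FiniteIndex := Subgroup.finiteIndex_of_le h1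
    exact Subgroup.finite_quotient_of_finiteIndex

end Pool.Agent.Results.MP_d483fb_an.QuaternionicBetti
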